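import Pool.Agent.PDZ.Stmts

/-!
# PDZ, rows PST, SST (helper49)
-/

set_option autoImplicit false

namespace Pool.Agent.PDZ.H49

open Multiset Pool.Agent.PDZ

theorem sm_add (k : ℕ) (P Q : Multiset ℕ) : sm k (P + Q) = sm k P + sm k Q := by
  unfold sm
  rw [Multiset.map_add, Multiset.sum_add]

theorem sm_cons (k a : ℕ) (P : Multiset ℕ) : sm k (a ::ₘ P) = (a - k) + sm k P := by
  unfold sm
  rw [Multiset.map_cons, Multiset.sum_cons]

theorem sm_zero_of_le (k : ℕ) (P : Multiset ℕ) (h : ∀ v ∈ P, v ≤ k) : sm k P = 0 := by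
  induction P using Multiset.induction_on with
  | empty => rfl
  | cons a P ih =>
    rw [sm_cons, ih (fun v hv => h v (Multiset.mem_cons_of_mem hv)),
      Nat.sub_eq_zero_of_le (h a (Multiset.mem_cons_self a P))]

theorem UU_add (P Q : Multiset ℕ) : UU (P + Q) = UU P + UU Q := by
  unfold UU
  rw [Multiset.count_add, Multiset.count_add, Multiset.count_add]
  ring

theorem sml_add (P Q : Multiset ℕ) : sml (P + Q) = sml P + sml Q := Multiset.filter_add _ _ _

theorem big_add (P Q : Multiset ℕ) : big (P + Q) = big P + big Q := Multiset.filter_add _ _ _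

theorem odd_add (P Q : Multiset ℕ) : odd (P + Q) = odd P + odd Q := Multiset.filter_add _ _ _

theorem UU_large (P : Multiset ℕ) (h : ∀ v ∈ P, 5 ≤ v) : UU P = 0 := by
  unfold UU
  rw [Multiset.count_eq_zero_of_notMem (fun hm => absurd (h 1 hm) (by omega)),
    Multiset.count_eq_zero_of_notMem (fun hm => absurd (h 2 hm) (by omega)),
    Multiset.count_eq_zero_of_notMem (fun hm => absurd (h 4 hm) (by omega))]

theorem c3_large (P : Multiset ℕ) (h : ∀ v ∈ P, 5 ≤ v) : P.count 3 = 0 :=
  Multiset.count_eq_zero_of_notMem (fun hm => absurd (h 3 hm) (by omega))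

theorem pz_zero : Pz 0 := by
  apply pz_of_rz
  apply PDS.main_all 0 0
  · intro v hv
    exact absurd hv (Multiset.notMem_zero v)
  · rfl
  · simp [PDS.demand, PDS.supply]

/-- MainStmt in our language. -/
theorem pz_main (Δ : ℕ) (D : Multiset ℕ) (hD : ∀ v ∈ D, 1 ≤ v ∧ v ≤ Δ) (hs : D.sum % 2 = 0)
    (h : sm 6 D + 20000 * Δ ≤ UU D + D.count 5) : Pz D := by
  apply pz_of_rz
  apply PDS.main_all Δ D hD hs
  unfold PDS.demand PDS.supply
  unfold sm UU at h
  omega

/-- PST: the entries 5 not counted. -/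
theorem pst (hASM : AsmStmt) (hCHO : ChoStmt) : PstStmt := by
  obtain ⟨K, hK⟩ := hASM
  obtain ⟨R, C, hC⟩ := hCHO K
  refine ⟨13 * C + 117 * R + 60000, ?_⟩
  intro Δ D hD hsum hcond
  rcases Nat.eq_zero_or_pos Δ with hΔ | hΔ
  · have : D = 0 := by
      apply Multiset.eq_zero_of_forall_notMem
      intro v hv
      have := hD v hv
      omega
    rw [this]
    exact pz_zero
  set S := D.filter (fun v => v ≤ 5) with hSdef
  set B := D.filter (fun v => ¬ v ≤ 5) with hBdef
  have hSB : S + B = D := Multiset.filter_add_not _ _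
  have hS : ∀ v ∈ S, 1 ≤ v ∧ v ≤ 5 := by
    intro v hv
    rw [hSdef, Multiset.mem_filter] at hv
    exact ⟨(hD v hv.1).1, hv.2⟩
  have hB : ∀ v ∈ B, 6 ≤ v ∧ v ≤ Δ := by
    intro v hv
    rw [hBdef, Multiset.mem_filter] at hv
    exact ⟨by omega, (hD v hv.1).2⟩
  have hUU : UU D = UU S := by
    rw [← hSB, UU_add, UU_large B (fun v hv => by have := hB v hv; omega), add_zero]
  have hc3 : D.count 3 = S.count 3 := by
    rw [← hSB, Multiset.count_add, c3_large B (fun v hv => by have := hB v hv; omega), add_zero]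
  have hsm : sm 6 D = sm 6 B := by
    rw [← hSB, sm_add, sm_zero_of_le 6 S (fun v hv => by have := hS v hv; omega), zero_add]
  have hsml : sml D = sml B := by
    rw [← hSB, sml_add]
    have : sml S = 0 := by
      apply Multiset.filter_eq_nil.2
      intro v hv
      have := hS v hv
      omega
    rw [this, zero_add]
  have hbig : big D = big B := by
    rw [← hSB, big_add]
    have : big S = 0 := by
      apply Multiset.filter_eq_nil.2
      intro v hv
      have := hS v hv
      omega
    rw [this, zero_add]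
  have hodd : odd D = odd B := by
    rw [← hSB, odd_add]
    have : odd S = 0 := by
      apply Multiset.filter_eq_nil.2
      intro v hv
      have := hS v hv
      omega
    rw [this, zero_add]
  by_cases hR : R * (Δ + 12) ≤ S.count 3
  · -- the tubes
    obtain ⟨A, X, Y0, Y1, Y2, Z, hBe, hA, hX, hY0, hY1, hY2, h1, h2, h3⟩ :=
      hC (Δ + 12) S B (by omega) hS (fun v hv => ⟨(hB v hv).1, by have := hB v hv; omega⟩) hR (by
        rw [hUU, hc3, hsm, hsml, hbig, hodd] at hcond
        refine le_trans ?_ hcond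
        have : C * (Δ + 12) ≤ (13 * C + 117 * R + 60000) * Δ := by
          nlinarith
        omega)
    have hmem : ∀ v, v ∈ A ∨ v ∈ X ∨ v ∈ Y0 ∨ v ∈ Y1 ∨ v ∈ Y2 ∨ v ∈ Z → 6 ≤ v ∧ v ≤ Δ := by
      intro v hv
      apply hB v
      rw [hBe]
      simp only [Multiset.mem_add]
      tauto
    have h4 := hK (Δ + 12) S A X Y0 Y1 Y2 Z (by omega) hS hA
      (fun v hv => ⟨by have := hX v hv; omega, by have := hmem v (by tauto); omega⟩)
      (fun v hv => ⟨by have := hY0 v hv; omega, by have := hmem v (by tauto); omega,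
        (hY0 v hv).2⟩)
      (fun v hv => ⟨(hY1 v hv).1, by have := hmem v (by tauto); omega, (hY1 v hv).2⟩)
      (fun v hv => ⟨by have := hY2 v hv; omega, by have := hmem v (by tauto); omega,
        (hY2 v hv).2⟩)
      (fun v hv => ⟨(hmem v (by tauto)).1, by have := hmem v (by tauto); omega⟩)
      (by
        rw [← hBe, hSB]
        exact hsum) h1 h2 h3
    rw [← hBe, hSB] at h4
    exact h4
  · -- few 3s
    apply pz_main Δ D hD hsum
    have h5 : 3 * sm 6 D + (13 * C + 117 * R + 60000) * Δ ≤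
        3 * UU D + 6 * D.count 3 + 3 * D.count 3 :=
      le_trans hcond (Nat.add_le_add_left (min_le_left _ _) _)
    have h6 : D.count 3 < R * (Δ + 12) := by
      rw [hc3]
      exact not_le.1 hR
    have h7 : 9 * (R * (Δ + 12)) ≤ 117 * R * Δ := by
      nlinarith
    have h8 : (13 * C + 117 * R + 60000) * Δ = 13 * C * Δ + 117 * R * Δ + 60000 * Δ := by ring
    omega

/-- greedy choice -/
theorem greedy (s : ℕ) (P : Multiset ℕ) : (∀ v ∈ P, v ≤ s) → ∀ t : ℕ, t ≤ sm 6 P →
    ∃ E ≤ P, sm 6 E ≤ t ∧ t ≤ sm 6 E + s := by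
  induction P using Multiset.induction_on with
  | empty =>
    intro _ t ht
    refine ⟨0, le_rfl, ?_, ?_⟩
    · exact Nat.zero_le _
    · have : sm 6 0 = 0 := rfl
      omega
  | cons a P ih =>
    intro hP t ht
    by_cases h : t ≤ sm 6 P
    · obtain ⟨E, hE, h1, h2⟩ := ih (fun v hv => hP v (Multiset.mem_cons_of_mem hv)) t h
      exact ⟨E, le_trans hE (Multiset.le_cons_self P a), h1, h2⟩
    · refine ⟨P, Multiset.le_cons_self P a, by omega, ?_⟩
      rw [sm_cons] at ht
      have := hP a (Multiset.mem_cons_self a P)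
      omega

theorem sm_split (D : Multiset ℕ) : sm 6 D = sm 6 (sml D) + sm 6 (big D) := by
  induction D using Multiset.induction_on with
  | empty => rfl
  | cons a P ih =>
    rw [sm_cons, ih]
    unfold sml big
    by_cases h1 : 7 ≤ a ∧ a ≤ 12
    · rw [Multiset.filter_cons_of_pos (p := fun v => 7 ≤ v ∧ v ≤ 12) P h1,
        Multiset.filter_cons_of_neg (p := fun v => 13 ≤ v) P (by omega), sm_cons]
      ring
    · by_cases h2 : 13 ≤ a
      · rw [Multiset.filter_cons_of_neg (p := fun v => 7 ≤ v ∧ v ≤ 12) P h1,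
          Multiset.filter_cons_of_pos (p := fun v => 13 ≤ v) P h2, sm_cons]
        ring
      · rw [Multiset.filter_cons_of_neg (p := fun v => 7 ≤ v ∧ v ≤ 12) P h1,
          Multiset.filter_cons_of_neg (p := fun v => 13 ≤ v) P h2]
        have : a - 6 = 0 := by omega
        rw [this, zero_add]

/-- split off `E` and almost all the 5s -/
theorem split_off (Δ : ℕ) (D : Multiset ℕ) (hD : ∀ v ∈ D, 1 ≤ v ∧ v ≤ Δ)
    (hsum : D.sum % 2 = 0) (E : Multiset ℕ) (hE : E ≤ D) (hE7 : ∀ v ∈ E, 7 ≤ v)
    (hΔ : 1 ≤ Δ) (hm : sm 6 E + 20001 * Δ ≤ D.count 5) :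
    ∃ D' : Multiset ℕ, (∀ v ∈ D', 1 ≤ v ∧ v ≤ Δ) ∧ D'.sum % 2 = 0 ∧ (Pz D' → Pz D) ∧
      UU D' = UU D ∧ D'.count 3 = D.count 3 ∧ sm 6 D' + sm 6 E = sm 6 D ∧
      sml D' + sml E = sml D ∧ big D' + big E = big D ∧ odd D' + odd E = odd D := by
  obtain ⟨m, hm1, hm2, hm3⟩ : ∃ m, m ≤ D.count 5 ∧ D.count 5 ≤ m + 1 ∧
      (E.sum + 5 * m) % 2 = 0 := by
    by_cases h : (E.sum + 5 * D.count 5) % 2 = 0
    · exact ⟨D.count 5, le_rfl, by omega, h⟩
    · exact ⟨D.count 5 - 1, by omega, by omega, by omega⟩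
  have hle : E + replicate m 5 ≤ D := by
    rw [Multiset.le_iff_count]
    intro v
    rw [Multiset.count_add, Multiset.count_replicate]
    by_cases hv : 5 = v
    · subst hv
      rw [if_pos rfl, Multiset.count_eq_zero_of_notMem
        (fun h => absurd (hE7 5 h) (by omega)), zero_add]
      exact hm1
    · rw [if_neg hv, add_zero]
      exact Multiset.count_le_of_le v hE
  have h5D : 5 ∈ D := by
    rw [← Multiset.count_pos]
    omega
  have h5Δ := (hD 5 h5D).2
  obtain ⟨D', hD'⟩ := Multiset.le_iff_exists_add.1 hle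
  have hsumE : (E + replicate m 5).sum = E.sum + 5 * m := by
    rw [Multiset.sum_add, Multiset.sum_replicate, smul_eq_mul]
    ring
  have hs2 : D'.sum % 2 = 0 := by
    rw [hD', Multiset.sum_add, hsumE] at hsum
    omega
  have h5 : ∀ v ∈ replicate m 5, v = 5 := fun v hv => Multiset.eq_of_mem_replicate hv
  have hUr : UU (replicate m 5) = 0 :=
    UU_large _ (fun v hv => by rw [h5 v hv])
  have hUE : UU E = 0 := UU_large _ (fun v hv => by have := hE7 v hv; omega)
  have hsr : sm 6 (replicate m 5) = 0 :=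
    sm_zero_of_le 6 _ (fun v hv => by rw [h5 v hv]; omega)
  have f1 : sml (replicate m 5) = 0 := by
    apply Multiset.filter_eq_nil.2
    intro v hv
    rw [h5 v hv]
    omega
  have f2 : big (replicate m 5) = 0 := by
    apply Multiset.filter_eq_nil.2
    intro v hv
    rw [h5 v hv]
    omega
  have f3 : odd (replicate m 5) = 0 := by
    apply Multiset.filter_eq_nil.2
    intro v hv
    rw [h5 v hv]
    omega
  refine ⟨D', ?_, hs2, ?_, ?_, ?_, ?_, ?_, ?_, ?_⟩
  · intro v hv
    apply hD
    rw [hD']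
    exact Multiset.mem_add.2 (Or.inr hv)
  · intro h
    rw [hD']
    refine pz_add ?_ h
    apply pz_main Δ
    · intro v hv
      rcases Multiset.mem_add.1 hv with h1 | h1
      · exact hD v (Multiset.mem_of_le hE h1)
      · rw [h5 v h1]
        exact ⟨by omega, h5Δ⟩
    · rw [hsumE]
      exact hm3
    · rw [sm_add, hsr, Multiset.count_add, Multiset.count_replicate_self]
      omega
  · rw [hD', UU_add, UU_add, hUE, hUr, zero_add, zero_add]
  · rw [hD', Multiset.count_add, c3_large (E + replicate m 5) (by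
      intro v hv
      rcases Multiset.mem_add.1 hv with h1 | h1
      · have := hE7 v h1
        omega
      · rw [h5 v h1]), zero_add]
  · rw [hD', sm_add, sm_add, hsr]
    ring
  · rw [hD', sml_add, sml_add, f1, add_zero, add_comm]
  · rw [hD', big_add, big_add, f2, add_zero, add_comm]
  · rw [hD', odd_add, odd_add, f3, add_zero, add_comm]

theorem arith2 (a a' e U n3 n5 sl h h' ce o o' x Δ : ℕ)
    (hc : 3 * a + (2 * x + 60006 * Δ) ≤ 3 * (U + n5) + 6 * n3 +
      min (3 * n3) (sl + (6 * h - (o - U) - n5)))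
    (h1 : a' + e = a) (h2 : 7 * ce ≤ e) (h3 : h' + ce = h) (h4 : o' ≤ o) (h5 : e ≤ n5)
    (h6 : n5 ≤ e + 20002 * Δ) :
    3 * a' + x ≤ 3 * U + 6 * n3 + min (3 * n3) (sl + (6 * h' - (o' - U))) := by
  have h7 : 6 * h - (o - U) - n5 ≤ 6 * h' - (o' - U) := by
    clear hc
    omega
  have h8 : min (3 * n3) (sl + (6 * h - (o - U) - n5)) ≤
      min (3 * n3) (sl + (6 * h' - (o' - U))) :=
    min_le_min le_rfl (Nat.add_le_add_left h7 _)
  generalize min (3 * n3) (sl + (6 * h - (o - U) - n5)) = M at hc h8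
  generalize min (3 * n3) (sl + (6 * h' - (o' - U))) = M' at h8 ⊢
  clear h7 h2 h3 h4
  omega

theorem arith1 (a a' e U n3 n5 x Δ : ℕ)
    (hc : 3 * a + (2 * x + 60006 * Δ) ≤ 3 * (U + n5) + 6 * n3 + 3 * n3)
    (h1 : a' + e = a) (h6 : n5 ≤ e + 20002 * Δ) :
    3 * a' + x ≤ 3 * U + 6 * n3 + min (3 * n3) a' := by
  rcases le_total (3 * n3) a' with h | h
  · rw [min_eq_left h]
    omega
  · rw [min_eq_right h]
    omega

/-- SST: with the entries 5. -/
theorem sst (hPST : PstStmt) : SstStmt := by
  obtain ⟨C1, hC1⟩ := hPST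
  refine ⟨2 * C1 + 60006, ?_⟩
  intro Δ D hD hsum hcond
  rcases Nat.eq_zero_or_pos Δ with hΔ | hΔ
  · have : D = 0 := by
      apply Multiset.eq_zero_of_forall_notMem
      intro v hv
      have := hD v hv
      omega
    rw [this]
    exact pz_zero
  have hCΔ : (2 * C1 + 60006) * Δ = 2 * (C1 * Δ) + 60006 * Δ := by ring
  rw [hCΔ] at hcond
  by_cases h0 : sm 6 D + 20000 * Δ ≤ UU D + D.count 5
  · exact pz_main Δ D hD hsum h0
  by_cases h1 : D.count 5 ≤ 20002 * Δ
  · apply hC1 Δ D hD hsum
    omega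
  have hsp := sm_split D
  by_cases h2 : D.count 5 - 20001 * Δ ≤ sm 6 (big D)
  · -- case II
    obtain ⟨E, hE, hE1, hE2⟩ := greedy Δ (big D)
      (fun v hv => (hD v (Multiset.mem_of_mem_filter hv)).2) _ h2
    have hE13 : ∀ v ∈ E, 13 ≤ v := by
      intro v hv
      exact (Multiset.mem_filter.1 (Multiset.mem_of_le hE hv)).2
    obtain ⟨D', g1, g2, g3, g4, g5, g6, g7, g8, g9⟩ := split_off Δ D hD hsum E
      (le_trans hE (Multiset.filter_le _ _)) (fun v hv => by have := hE13 v hv; omega) hΔ
      (by omega)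
    apply g3
    apply hC1 Δ D' g1 g2
    have hslE : sml E = 0 := by
      apply Multiset.filter_eq_nil.2
      intro v hv
      have := hE13 v hv
      omega
    have hbgE : big E = E := Multiset.filter_eq_self.2 hE13
    rw [hslE, add_zero] at g7
    rw [hbgE] at g8
    have hcE : 7 * card E ≤ sm 6 E := by
      clear hE hE1 hE2 g6 g8 g9 hslE hbgE g7
      induction E using Multiset.induction_on with
      | empty => simp
      | cons a P ih =>
        rw [sm_cons, Multiset.card_cons]
        have := ih (fun v hv => hE13 v (Multiset.mem_cons_of_mem hv))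
        have := hE13 a (Multiset.mem_cons_self a P)
        omega
    have hb : card (big D') + card E = card (big D) := by rw [← g8, Multiset.card_add]
    have ho : card (odd D') ≤ card (odd D) := by
      rw [← g9, Multiset.card_add]
      omega
    rw [g4, g5, g7]
    refine arith2 _ (sm 6 D') (sm 6 E) _ _ _ _ _ (card (big D')) (card E) (card (odd D))
      (card (odd D')) _ Δ hcond g6 hcE hb ho ?_ ?_
    · omega
    · omega
  · -- case I
    have h3 : D.count 5 - 20001 * Δ - sm 6 (big D) ≤ sm 6 (sml D) := by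
      omega
    obtain ⟨E, hE, hE1, hE2⟩ := greedy Δ (sml D)
      (fun v hv => (hD v (Multiset.mem_of_mem_filter hv)).2) _ h3
    have hEs : ∀ v ∈ E, 7 ≤ v ∧ v ≤ 12 := by
      intro v hv
      exact (Multiset.mem_filter.1 (Multiset.mem_of_le hE hv)).2
    have hle : big D + E ≤ D := by
      refine le_trans (add_le_add_right hE (big D)) ?_
      unfold big sml
      rw [Multiset.filter_add_filter]
      have : filter (fun v => 13 ≤ v ∧ 7 ≤ v ∧ v ≤ 12) D = 0 := by
        apply Multiset.filter_eq_nil.2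
        intro v _
        omega
      rw [this, add_zero]
      exact Multiset.filter_le _ _
    have hb13 : ∀ v ∈ big D, 13 ≤ v := fun v hv => (Multiset.mem_filter.1 hv).2
    obtain ⟨D', g1, g2, g3, g4, g5, g6, g7, g8, g9⟩ := split_off Δ D hD hsum (big D + E) hle
      (fun v hv => by
        rcases Multiset.mem_add.1 hv with h | h
        · have := hb13 v h
          omega
        · exact (hEs v h).1) hΔ
      (by
        rw [sm_add]
        omega)
    apply g3
    apply hC1 Δ D' g1 g2
    have hbE : big E = 0 := by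
      apply Multiset.filter_eq_nil.2
      intro v hv
      have := hEs v hv
      omega
    have hbb : big (big D) = big D := Multiset.filter_eq_self.2 hb13
    rw [big_add, hbE, add_zero, hbb] at g8
    have hb' : big D' = 0 := by
      have := congrArg card g8
      rw [Multiset.card_add] at this
      apply Multiset.card_eq_zero.1
      omega
    have hsp' := sm_split D'
    rw [hb'] at hsp'
    have hz : sm 6 (0 : Multiset ℕ) = 0 := rfl
    rw [hz, add_zero] at hsp'
    rw [sm_add] at g6
    rw [g4, g5, hb', ← hsp', Multiset.card_zero, mul_zero, Nat.zero_sub, add_zero]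
    have hM := le_trans hcond (Nat.add_le_add_left (min_le_left _ _) _)
    refine arith1 _ (sm 6 D') (sm 6 (big D) + sm 6 E) _ _ _ _ Δ hM g6 ?_
    omega

end Pool.Agent.PDZ.H49
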